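import Pool.Agent.TH980.CN.Gnc

/-!
# Random conductances: the boundary form on finitely supported vectors

`H_w = - div w grad` on `ℓ²(ℤ^d)`, `w_e` iid with any law on `[a, b]`, `a > 0`, which is not a point
mass, for instance a law on two points. There is a Borel set `S` such that almost surely the
spectrum is purely singular outside `S`, and simultaneously for all finitely supported vectors `u`
(an uncountable family, `u` may depend on `w`): for almost every energy `E` the limit of
`Im ⟨u, (H_w - E - iη)⁻¹ u⟩` exists, and it vanishes if and only if `E ∉ S` or `u = (H_w - E) v` with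
`v` finitely supported; in particular the spectral measure of every nonzero finitely supported
vector is not singular on any Borel set which meets `S` in positive measure.
-/

set_option autoImplicit false

open MeasureTheory Filter Topology

namespace Pool.Agent.Results.MP_938f0c_mp.FiniteSupport

/-- The Hilbert space `ℓ²(ℤ^d)`. -/
def L2 (d : ℕ) : Type := lp (fun _ : Fin d → ℤ => ℂ) 2

/-- The `ℓ²` norm. -/
noncomputable instance instNorm (d : ℕ) : NormedAddCommGroup (L2 d) :=
  @lp.normedAddCommGroup (Fin d → ℤ) (fun _ => ℂ) 2 _ _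

/-- The `ℓ²` inner product. -/
noncomputable instance instInner (d : ℕ) : InnerProductSpace ℂ (L2 d) :=
  @lp.instInnerProductSpace (Fin d → ℤ) ℂ _ (fun _ => ℂ) _ _

/-- The underlying function of a vector of `ℓ²(ℤ^d)`. -/
def coord {d : ℕ} (u : L2 d) : (Fin d → ℤ) → ℂ := (show lp (fun _ : Fin d → ℤ => ℂ) 2 from u)

/-- Bounded linear operators on a complex inner product space. -/
abbrev Op (E : Type) [NormedAddCommGroup E] [InnerProductSpace ℂ E] : Type := E →L[ℂ] E

/-- The nearest-neighbour edges of `ℤ^d`: `(x, i)` is the edge between `x` and `x + e_i`. -/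
abbrev Edge (d : ℕ) : Type := (Fin d → ℤ) × Fin d

/-- the operator of the problem, `(H_w f)(x) = ∑_{|x-y|=1} w_{x,y} (f(x) - f(y))` (the neighbours
`y` of `x` are `x ± e_i`) -/
noncomputable def act {d : ℕ} (w : Edge d → ℝ) (f : (Fin d → ℤ) → ℂ) (x : Fin d → ℤ) : ℂ :=
  ∑ i : Fin d, ((w (x, i) : ℂ) * (f x - f (x + Pi.single i 1)) +
    (w (x - Pi.single i 1, i) : ℂ) * (f x - f (x - Pi.single i 1)))

/-- The bounded operator `H` on `ℓ²(ℤ^d)` is `H_w`. -/
def IsConductance {d : ℕ} (w : Edge d → ℝ) (H : Op (L2 d)) : Prop :=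
  ∀ u : L2 d, coord (H u) = act w (coord u)

/-- `(H - z)⁻¹` -/
noncomputable def res {E : Type} [NormedAddCommGroup E] [InnerProductSpace ℂ E] (H : Op E) (z : ℂ) :
    Op E :=
  Ring.inverse (H - z • (1 : Op E))

/-- `μ` is the spectral measure of `ψ`: a finite measure with Borel transform
`⟨ψ, (H - z)⁻¹ ψ⟩` off the real line. -/
def IsSpectralMeasure {E : Type} [NormedAddCommGroup E] [InnerProductSpace ℂ E]
    (H : Op E) (ψ : E) (μ : Measure ℝ) : Prop :=
  IsFiniteMeasure μ ∧ ∀ z : ℂ, z.im ≠ 0 →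
    ∫ x, ((x : ℂ) - z)⁻¹ ∂μ = inner ℂ ψ (res H z ψ)

/-- the law of iid conductances with law `ν` -/
noncomputable def iid (d : ℕ) (ν : Measure ℝ) : Measure (Edge d → ℝ) :=
  Measure.infinitePi fun _ => ν

/-- `u` has finite support -/
def FinSupp {d : ℕ} (u : L2 d) : Prop := {j | coord u j ≠ 0}.Finite

/-- every vector has a spectral measure, and the spectral measures of all vectors are singular on
`B` if `B ∩ S` is Lebesgue null -/
def SingularOff {d : ℕ} (H : Op (L2 d)) (S : Set ℝ) : Prop :=
  (∀ φ : L2 d, ∃ μ : Measure ℝ, IsSpectralMeasure H φ μ) ∧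
  ∀ B : Set ℝ, MeasurableSet B → volume (B ∩ S) = 0 → ∀ (φ : L2 d) (μ : Measure ℝ),
    IsSpectralMeasure H φ μ → (μ.restrict B) ⟂ₘ volume

/-- for almost every `E`, for all finitely supported `u`: the limit `l` of
`Im ⟨u, (H - E - iη)⁻¹ u⟩` for `η → 0+` exists, and `l = 0` if and only if `E ∉ S` or
`u = (H - E) v` for a finitely supported `v` -/
def LocalForm {d : ℕ} (H : Op (L2 d)) (S : Set ℝ) : Prop :=
  ∀ᵐ E : ℝ, ∀ u : L2 d, FinSupp u → ∃ l : ℝ,
    Tendsto (fun η : ℝ => (inner ℂ u (res H (E + η * Complex.I) u)).im) (𝓝[>] 0) (𝓝 l) ∧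
    (l = 0 ↔ (E ∉ S ∨ ∃ v : L2 d, FinSupp v ∧ u = H v - (E : ℂ) • v))

/-- the spectral measure of `u` is not singular on the Borel set `B` if `B ∩ S` is not Lebesgue
null -/
def SeesAll {d : ℕ} (H : Op (L2 d)) (S : Set ℝ) (u : L2 d) : Prop :=
  ∀ B : Set ℝ, MeasurableSet B → volume (B ∩ S) ≠ 0 → ∀ μ : Measure ℝ,
    IsSpectralMeasure H u μ → ¬ (μ.restrict B) ⟂ₘ volume

/-- Let `d ≥ 1` and let `ν` be a law on `[a, b]`, `a > 0`, which is not a point mass. There is a
Borel set `S` such that for almost every family `w` of iid conductances with law `ν` there is exactly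
one bounded operator `H = H_w`, the spectral measures of all vectors are singular on every Borel set
which meets `S` in a null set, and
* for almost every `E` and all finitely supported `u` the limit of `Im ⟨u, (H - E - iη)⁻¹ u⟩`
  exists; it is zero if and only if `E ∉ S` or `u ∈ (H - E)(finitely supported vectors)`;
* for all nonzero finitely supported `u` the spectral measure of `u` is not singular on any Borel
  set which meets `S` in positive measure. -/
theorem result (d : ℕ) (hd : 1 ≤ d) (a b : ℝ) (ha : 0 < a) (ν : Measure ℝ)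
    [IsProbabilityMeasure ν] (hab : ν (Set.Icc a b) = 1) (hν : ∀ c : ℝ, ν {c} ≠ 1) :
    ∃ S : Set ℝ, MeasurableSet S ∧ ∀ᵐ w ∂(iid d ν),
      (∃! H : Op (L2 d), IsConductance w H) ∧ ∀ H : Op (L2 d), IsConductance w H →
        SingularOff H S ∧ LocalForm H S ∧ ∀ u : L2 d, u ≠ 0 → FinSupp u → SeesAll H S u := by
  obtain ⟨S, hS, hmain⟩ := TH980.CN.final3C (d := d) hd ha ν hab hν
  refine ⟨S, hS, ?_⟩
  filter_upwards [hmain] with w ⟨H0, h1, h2, h3, h4, h5, h6⟩
  refine ⟨⟨H0, fun u => funext fun j => h1 u j, fun H hH => h2 H fun u j => congrFun (hH u) j⟩,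
    fun H hH => ?_⟩
  have hHe : H = H0 := h2 H fun u j => congrFun (hH u) j
  subst hHe
  exact ⟨⟨fun φ => h3 φ, fun B hB hB0 φ μ hμ => h4 B hB hB0 φ μ hμ.1 hμ.2⟩, h5,
    fun u hu hfin B hB hB0 μ hμ => h6 u hu hfin B hB hB0 μ hμ.1 hμ.2⟩

end Pool.Agent.Results.MP_938f0c_mp.FiniteSupport
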