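import Pool.Agent.TH980.CN.Mlt

/-!
# Random conductances: the absolutely continuous spectrum never has finite multiplicity

`H_w = - div w grad` on `ℓ²(ℤ^d)`, `w_e` iid with any law on `[a, b]`, `a > 0`, which is not a point
mass, for instance a law on two points. Almost surely, on every Borel set of energies which carries
absolutely continuous spectrum, the absolutely continuous spectrum has infinite multiplicity: for
every finite family of vectors there is a nonzero absolutely continuous state, with energies in the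
given set, which is orthogonal to the cyclic subspaces of all these vectors.
-/

set_option autoImplicit false

open MeasureTheory

namespace Pool.Agent.Results.MP_938f0c_mp.InfiniteMultiplicity

/-- The Hilbert space `ℓ²(ℤ^d)`. -/
def L2 (d : ℕ) : Type := lp (fun _ : Fin d → ℤ => ℂ) 2

/-- The `ℓ²` norm. -/
noncomputable instance instNorm (d : ℕ) : NormedAddCommGroup (L2 d) :=
  @lp.normedAddCommGroup (Fin d → ℤ) (fun _ => ℂ) 2 _ _

/-- The `ℓ²` inner product. -/
noncomputable instance instInner (d : ℕ) : InnerProductSpace ℂ (L2 d) :=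
  @lp.instInnerProductSpace (Fin d → ℤ) ℂ _ (fun _ => ℂ) _ _

/-- The underlying function of a vector of `ℓ²(ℤ^d)`. -/
def coord {d : ℕ} (u : L2 d) : (Fin d → ℤ) → ℂ := (show lp (fun _ : Fin d → ℤ => ℂ) 2 from u)

/-- Bounded linear operators on a complex inner product space. -/
abbrev Op (E : Type) [NormedAddCommGroup E] [InnerProductSpace ℂ E] : Type := E →L[ℂ] E

/-- The nearest-neighbour edges of `ℤ^d`: `(x, i)` is the edge between `x` and `x + e_i`. -/
abbrev Edge (d : ℕ) : Type := (Fin d → ℤ) × Fin d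

/-- the operator of the problem, `(H_w f)(x) = ∑_{|x-y|=1} w_{x,y} (f(x) - f(y))` (the neighbours
`y` of `x` are `x ± e_i`) -/
noncomputable def act {d : ℕ} (w : Edge d → ℝ) (f : (Fin d → ℤ) → ℂ) (x : Fin d → ℤ) : ℂ :=
  ∑ i : Fin d, ((w (x, i) : ℂ) * (f x - f (x + Pi.single i 1)) +
    (w (x - Pi.single i 1, i) : ℂ) * (f x - f (x - Pi.single i 1)))

/-- The bounded operator `H` on `ℓ²(ℤ^d)` is `H_w`. -/
def IsConductance {d : ℕ} (w : Edge d → ℝ) (H : Op (L2 d)) : Prop :=
  ∀ u : L2 d, coord (H u) = act w (coord u)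

/-- `(H - z)⁻¹` -/
noncomputable def res {E : Type} [NormedAddCommGroup E] [InnerProductSpace ℂ E] (H : Op E) (z : ℂ) :
    Op E :=
  Ring.inverse (H - z • (1 : Op E))

/-- `μ` is the spectral measure of `ψ`: a finite measure with Borel transform
`⟨ψ, (H - z)⁻¹ ψ⟩` off the real line. -/
def IsSpectralMeasure {E : Type} [NormedAddCommGroup E] [InnerProductSpace ℂ E]
    (H : Op E) (ψ : E) (μ : Measure ℝ) : Prop :=
  IsFiniteMeasure μ ∧ ∀ z : ℂ, z.im ≠ 0 →
    ∫ x, ((x : ℂ) - z)⁻¹ ∂μ = inner ℂ ψ (res H z ψ)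

/-- `χ` is orthogonal to the cyclic subspaces of `ψ_1, ..., ψ_n`: to all `H^m ψ_j`. -/
def OrthCyclic {E : Type} [NormedAddCommGroup E] [InnerProductSpace ℂ E]
    (H : Op E) {n : ℕ} (ψ : Fin n → E) (χ : E) : Prop :=
  ∀ (m : ℕ) (j : Fin n), inner ℂ ((H ^ m) (ψ j)) χ = 0

/-- the spectral measure of `χ` is absolutely continuous and vanishes outside `B` -/
def IsACState {E : Type} [NormedAddCommGroup E] [InnerProductSpace ℂ E]
    (H : Op E) (B : Set ℝ) (χ : E) : Prop :=
  ∃ ρ : Measure ℝ, IsSpectralMeasure H χ ρ ∧ ρ ≪ volume ∧ ρ Bᶜ = 0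

/-- the law of iid conductances with law `ν` -/
noncomputable def iid (d : ℕ) (ν : Measure ℝ) : Measure (Edge d → ℝ) :=
  Measure.infinitePi fun _ => ν

/-- Let `d ≥ 1` and let `ν` be a law on `[a, b]`, `a > 0`, which is not a point mass. For almost
every family `w` of iid conductances with law `ν` the following holds. There is exactly one bounded
operator `H = H_w` on `ℓ²(ℤ^d)`. If the spectral measure of some vector `φ` is not singular on the
Borel set `B`, then for every finite family `ψ_1, ..., ψ_n` there is a nonzero vector `χ` which is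
orthogonal to `H^m ψ_j` for all `m` and `j`, and whose spectral measure is absolutely continuous and
vanishes outside `B`. -/
theorem result (d : ℕ) (hd : 1 ≤ d) (a b : ℝ) (ha : 0 < a) (ν : Measure ℝ)
    [IsProbabilityMeasure ν] (hab : ν (Set.Icc a b) = 1) (hν : ∀ c : ℝ, ν {c} ≠ 1) :
    ∀ᵐ w ∂(iid d ν), (∃! H : Op (L2 d), IsConductance w H) ∧
      ∀ H : Op (L2 d), IsConductance w H → ∀ (φ : L2 d) (μ : Measure ℝ),
        IsSpectralMeasure H φ μ → ∀ B : Set ℝ, MeasurableSet B → ¬ (μ.restrict B) ⟂ₘ volume →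
          ∀ (n : ℕ) (ψ : Fin n → L2 d), ∃ χ : L2 d, χ ≠ 0 ∧ OrthCyclic H ψ χ ∧ IsACState H B χ := by
  filter_upwards [TH980.CN.mult_final hd ha ν hab hν] with w ⟨H0, h1, h2, h3⟩
  refine ⟨⟨H0, fun u => funext fun j => h1 u j, fun H hH => h2 H fun u j => congrFun (hH u) j⟩,
    fun H hH φ μ hμ B hB hns n ψ => ?_⟩
  have hHe : H = H0 := h2 H fun u j => congrFun (hH u) j
  subst hHe
  exact h3 φ μ hμ.1 hμ.2 B hB hns n ψ

end Pool.Agent.Results.MP_938f0c_mp.InfiniteMultiplicity
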