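import Pool.Agent.TH980.CN.Fin

/-!
# Random conductances: every fixed vector almost surely sees the whole absolutely continuous spectrum

`H_w = - div w grad` on `ℓ²(ℤ^d)`, `w_e` iid with any law on `[a, b]`, `a > 0`, which is not a point
mass, for instance a law on two points. There is a Borel set `S` such that for every nonzero `u` in
`ℓ²(ℤ^d)`, almost surely: the spectral measures of all vectors are singular outside `S`, and the
spectral measure of `u` is not singular on any Borel set which meets `S` in positive measure. In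
particular the spectrum is almost surely purely singular as soon as, for one `u ≠ 0`, the spectral
measure of `u` is singular with positive probability.
-/

set_option autoImplicit false

open MeasureTheory

namespace Pool.Agent.Results.MP_938f0c_mp.OneVector

/-- The Hilbert space `ℓ²(ℤ^d)`. -/
def L2 (d : ℕ) : Type := lp (fun _ : Fin d → ℤ => ℂ) 2

/-- The `ℓ²` norm. -/
noncomputable instance instNorm (d : ℕ) : NormedAddCommGroup (L2 d) :=
  @lp.normedAddCommGroup (Fin d → ℤ) (fun _ => ℂ) 2 _ _

/-- The `ℓ²` inner product. -/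
noncomputable instance instInner (d : ℕ) : InnerProductSpace ℂ (L2 d) :=
  @lp.instInnerProductSpace (Fin d → ℤ) ℂ _ (fun _ => ℂ) _ _

/-- The underlying function of a vector of `ℓ²(ℤ^d)`. -/
def coord {d : ℕ} (u : L2 d) : (Fin d → ℤ) → ℂ := (show lp (fun _ : Fin d → ℤ => ℂ) 2 from u)

/-- Bounded linear operators on a complex inner product space. -/
abbrev Op (E : Type) [NormedAddCommGroup E] [InnerProductSpace ℂ E] : Type := E →L[ℂ] E

/-- The nearest-neighbour edges of `ℤ^d`: `(x, i)` is the edge between `x` and `x + e_i`. -/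
abbrev Edge (d : ℕ) : Type := (Fin d → ℤ) × Fin d

/-- the operator of the problem, `(H_w f)(x) = ∑_{|x-y|=1} w_{x,y} (f(x) - f(y))` (the neighbours
`y` of `x` are `x ± e_i`) -/
noncomputable def act {d : ℕ} (w : Edge d → ℝ) (f : (Fin d → ℤ) → ℂ) (x : Fin d → ℤ) : ℂ :=
  ∑ i : Fin d, ((w (x, i) : ℂ) * (f x - f (x + Pi.single i 1)) +
    (w (x - Pi.single i 1, i) : ℂ) * (f x - f (x - Pi.single i 1)))

/-- The bounded operator `H` on `ℓ²(ℤ^d)` is `H_w`. -/
def IsConductance {d : ℕ} (w : Edge d → ℝ) (H : Op (L2 d)) : Prop :=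
  ∀ u : L2 d, coord (H u) = act w (coord u)

/-- `(H - z)⁻¹` -/
noncomputable def res {E : Type} [NormedAddCommGroup E] [InnerProductSpace ℂ E] (H : Op E) (z : ℂ) :
    Op E :=
  Ring.inverse (H - z • (1 : Op E))

/-- `μ` is the spectral measure of `ψ`: a finite measure with Borel transform
`⟨ψ, (H - z)⁻¹ ψ⟩` off the real line. -/
def IsSpectralMeasure {E : Type} [NormedAddCommGroup E] [InnerProductSpace ℂ E]
    (H : Op E) (ψ : E) (μ : Measure ℝ) : Prop :=
  IsFiniteMeasure μ ∧ ∀ z : ℂ, z.im ≠ 0 →
    ∫ x, ((x : ℂ) - z)⁻¹ ∂μ = inner ℂ ψ (res H z ψ)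

/-- the law of iid conductances with law `ν` -/
noncomputable def iid (d : ℕ) (ν : Measure ℝ) : Measure (Edge d → ℝ) :=
  Measure.infinitePi fun _ => ν

/-- every vector has a spectral measure, and the spectral measures of all vectors are singular on
`B` if `B ∩ S` is Lebesgue null -/
def SingularOff {d : ℕ} (H : Op (L2 d)) (S : Set ℝ) : Prop :=
  (∀ φ : L2 d, ∃ μ : Measure ℝ, IsSpectralMeasure H φ μ) ∧
  ∀ B : Set ℝ, MeasurableSet B → volume (B ∩ S) = 0 → ∀ (φ : L2 d) (μ : Measure ℝ),
    IsSpectralMeasure H φ μ → (μ.restrict B) ⟂ₘ volume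

/-- the spectral measure of `u` is not singular on the Borel set `B` if `B ∩ S` is not Lebesgue
null -/
def SeesAll {d : ℕ} (H : Op (L2 d)) (S : Set ℝ) (u : L2 d) : Prop :=
  ∀ B : Set ℝ, MeasurableSet B → volume (B ∩ S) ≠ 0 → ∀ μ : Measure ℝ,
    IsSpectralMeasure H u μ → ¬ (μ.restrict B) ⟂ₘ volume

/-- Let `d ≥ 1` and let `ν` be a law on `[a, b]`, `a > 0`, which is not a point mass. There is a
Borel set `S` of energies such that for every nonzero `u` in `ℓ²(ℤ^d)` the following holds for
almost every family `w` of iid conductances with law `ν`: there is exactly one bounded operator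
`H = H_w`, the spectral measures of all vectors are singular on every Borel set which meets `S` in a
null set, and the spectral measure of `u` is not singular on any Borel set which meets `S` in
positive measure. -/
theorem result (d : ℕ) (hd : 1 ≤ d) (a b : ℝ) (ha : 0 < a) (ν : Measure ℝ)
    [IsProbabilityMeasure ν] (hab : ν (Set.Icc a b) = 1) (hν : ∀ c : ℝ, ν {c} ≠ 1) :
    ∃ S : Set ℝ, MeasurableSet S ∧ ∀ u : L2 d, u ≠ 0 → ∀ᵐ w ∂(iid d ν),
      (∃! H : Op (L2 d), IsConductance w H) ∧
        ∀ H : Op (L2 d), IsConductance w H → SingularOff H S ∧ SeesAll H S u := by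
  obtain ⟨S, hS, hmain⟩ := TH980.CN.cond_final (d := d) hd ha ν hab hν
  refine ⟨S, hS, fun u hu => ?_⟩
  filter_upwards [hmain u hu] with w ⟨H0, h1, h2, h3, h4⟩
  refine ⟨⟨H0, fun u => funext fun j => h1 u j, fun H hH => h2 H fun u j => congrFun (hH u) j⟩,
    fun H hH => ?_⟩
  have hHe : H = H0 := h2 H fun u j => congrFun (hH u) j
  subst hHe
  exact ⟨⟨fun φ => h3 φ, fun B hB hB0 φ μ hμ => (h4 B hB).1 hB0 φ μ hμ.1 hμ.2⟩,
    fun B hB hB0 μ hμ => (h4 B hB).2 hB0 μ hμ.1 hμ.2⟩

end Pool.Agent.Results.MP_938f0c_mp.OneVector
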